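import Pool.Agent.T9h35.SG.Main

set_option autoImplicit false

/-!
# Average-case hardness of clique for arbitrary circuits: a random pair `H ≤ H'`
-/

namespace Pool.Agent.T9h35.AV

open Finset Pool.Agent.T9h34.S Pool.Agent.T9h34.S.Gr
open Pool.Agent.T9h34 (ind ind_of ind_not ind_nonneg ind_le_one ind_mono smalls Ev Ev_mono Spread
  chi pull Ground wordSet card_wordSet graphInput)
open Pool.Agent.T9h34.G (Row sparseCode NoiseOp)
open Pool.Agent.T9h34.W (exists_enum ind_filter_sum)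
open Pool.Agent.T9h35.RW (Circuit Gate Nondecreasing)
open Pool.Agent.T9h34.V (exists_space cutOp cutOp_word le_cutOp score_le grid_data)
open Pool.Agent.VC34 (fanIn_mono pull_mono eval_of_reads_eq sum_filter_ind tests_eq numTests_eq
  answers_eq changes_le' changes numTests)
open Pool.Agent.T9h35.TX (Hyp)
open Pool.Agent.T9h35.SG (star_data)
open scoped Classical

/-- The main case, from the data. -/
theorem pair_case {n q s f L0 β a r m p l c lam : ℕ} {S : Row a (r * β) → Fin 4 → Fin m}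
    {N : NoiseOp (Ground a (r * β))} {B κ : ℝ} {e : ℕ → Fin p × Fin p}
    {σ : Fin n × Fin n → GGround a (r * β) p ⊕ Bool}
    {Φ : Finset (GGround a (r * β) p) → SimpleGraph (Fin n)}
    (hf : 2 ≤ f) (hs : s < 2 ^ L0) (hl : l = 2 * L0 + 100) (hβlam : β ≤ lam)
    (hcβ : 3 * l < c * β) (ha : 0 < a) (hp0 : 0 < p)
    (hX : Fintype.card (Ground a (r * β)) + 1 ≤ 2 ^ lam)
    (Hy : Hyp N (wordSet (sparseCode S)) (5 * (lam * c)) c f B κ ((1 / 2 : ℝ) ^ β))
    (hη : (T9h34.S.powOp N (5 * (lam * c) + 1)).E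
      (fun U => ind (∃ s, wordSet (sparseCode S) s ⊆ U)) ≤ (1 / 2 : ℝ) ^ (2 * l))
    (he : ∀ i < p ^ 2, ∀ j < p ^ 2, e i = e j → i = j)
    (hΦ : ∀ Z, (∃ T, (Φ Z).IsNClique q T) ↔ Gr.HasWord S Z)
    (hσ : ∀ Z, pull σ (chi Z) = graphInput (Φ Z))
    (hMsmall : ((p ^ 2 : ℕ) : ℝ) * (1 / 2 : ℝ) ^ (2 * l) ≤ 1) :
    ∃ (Ω : Type) (_ : Fintype Ω) (ν : Ω → ℝ) (G : Ω → ℕ → SimpleGraph (Fin n))
      (H H' : Ω → SimpleGraph (Fin n)),
      (∀ ω, 0 ≤ ν ω) ∧ ∑ ω, ν ω = 1 ∧ (∀ ω i, G ω i ≤ G ω (i + 1)) ∧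
      (∀ ω i, ¬ ∃ T, (G ω i).IsNClique q T) ∧
      (∀ ω, H ω ≤ H' ω ∧ (¬ ∃ T, (H ω).IsNClique q T) ∧ ∃ T, (H' ω).IsNClique q T) ∧
      ∀ (d : ℕ) (C : Circuit (Fin n × Fin n)), C.FanIn f d → C.size + C.numTests ≤ s →
        ((p ^ 2 : ℕ) : ℝ) * (∑ ω, ν ω * ind (C.eval (graphInput (H' ω)) = true) -
            ∑ ω, ν ω * ind (C.eval (graphInput (H ω)) = true)) ≤
          8 + 6 * ∑ ω, ν ω * ((range (p ^ 2)).filter fun i =>
            C.reads (graphInput (G ω (i + 1))) ≠ C.reads (graphInput (G ω i))).card := by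
  have hM0 : 0 < p ^ 2 := by positivity
  obtain ⟨Ω, _, ν, u, h0, h1, h2, h3, -, -, -, h7⟩ :=
    exists_space S (T9h34.S.powOp N (5 * (lam * c) + 1)) e ha (p ^ 2) he
  obtain ⟨T, hT⟩ : ∃ T, T = cutOp S (T9h34.S.powOp N (5 * (lam * c) + 1)) := ⟨_, rfl⟩
  rw [← hT] at h7
  have hTw : T.E (fun U => ind (∃ s, wordSet (sparseCode S) s ⊆ U)) ≤ 0 := by
    rw [hT]
    exact cutOp_word S _ ha
  -- monotonicity of the embedding
  have hgi : ∀ U Z : Finset (GGround a (r * β) p), U ⊆ Z → ∀ i, graphInput (Φ U) i = true →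
      graphInput (Φ Z) i = true := by
    intro U Z hUZ
    rw [← hσ, ← hσ]
    exact pull_mono σ (Gr.chi_le hUZ)
  have hΦmono : ∀ U Z : Finset (GGround a (r * β) p), U ⊆ Z → Φ U ≤ Φ Z := by
    intro U Z hUZ v w hvw
    have h4 := hgi U Z hUZ (v, w) (by unfold graphInput; exact decide_eq_true hvw)
    unfold graphInput at h4
    exact of_decide_eq_true h4
  obtain ⟨w, hw⟩ : ∃ w : ℝ, w = ((p ^ 2 : ℕ) : ℝ)⁻¹ * (Fintype.card (Fin m → ZMod 2) : ℝ)⁻¹ :=
    ⟨_, rfl⟩
  have hMr : (0 : ℝ) < ((p ^ 2 : ℕ) : ℝ) := by exact_mod_cast hM0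
  have hNr : (0 : ℝ) < (Fintype.card (Fin m → ZMod 2) : ℝ) := by
    exact_mod_cast Fintype.card_pos
  have hw0 : 0 ≤ w := by rw [hw]; positivity
  have hw1 : ∑ _x : Fin (p ^ 2) × (Fin m → ZMod 2), w = 1 := by
    rw [sum_const, card_univ, Fintype.card_prod, Fintype.card_fin, nsmul_eq_mul, hw]
    push_cast
    push_cast at hMr
    field_simp
  have hstage : ∀ j < p ^ 2, ∀ g : Finset (GGround a (r * β) p) → ℝ,
      stage T e j g = ∑ ω, ν ω * g (u ω j) := by
    intro j hj g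
    rw [h7 j hj (fun U _ => g U)]
    congr 1
    funext U
    exact (T.const' _).symm
  refine ⟨Ω × (Fin (p ^ 2) × (Fin m → ZMod 2)), inferInstance, fun x => ν x.1 * w,
    fun x i => Φ (u x.1 i), fun x => Φ (u x.1 x.2.1),
    fun x => Φ (put (u x.1 x.2.1) (e x.2.1) (wordSet (sparseCode S) x.2.2)),
    fun x => mul_nonneg (h0 _) hw0, ?_,
    fun x i => hΦmono _ _ (h2 x.1 i), fun x i h => h3 x.1 i ((hΦ _).1 h), fun x => ⟨?_, ?_, ?_⟩, ?_⟩
  · rw [Fintype.sum_prod_type]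
    simp only [← Finset.mul_sum, hw1, mul_one]
    exact h1
  · exact hΦmono _ _ subset_union_left
  · exact fun h => h3 x.1 _ ((hΦ _).1 h)
  · exact (hΦ _).2 ⟨e x.2.1, x.2.2, fun g hg => mem_put.2 (Or.inr ⟨rfl, hg⟩)⟩
  intro d C hC hCs
  have hδ : (0 : ℝ) ≤ 5 * (1 / 2 : ℝ) ^ (2 * l) := by positivity
  have herr : T9h35.TX.err (Ground a (r * β)) (5 * (lam * c)) c (s + 1) ((1 / 2 : ℝ) ^ β) ≤
      2 * (1 / 2 : ℝ) ^ (2 * l) :=
    T9h35.TX.terr_small hβlam hcβ (by omega) (by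
      have h4 : 2 ^ L0 < 2 ^ l := Nat.pow_lt_pow_right (by norm_num) (by omega)
      omega) hX
  have hscore := score_le (S := S) (T := T) (e := e) (p ^ 2) ha he hTw
    (fun Z => C.eval (graphInput (Φ Z))) (fun Z => C.reads (graphInput (Φ Z))) hδ
    (by
      intro U e'
      obtain ⟨E, hE1, hE2, hE3, hE4⟩ := T9h35.RW.exists_detector hf C hC (graphInput (Φ U))
      refine ⟨fun Z => E.eval (graphInput (Φ Z)), ?_, ?_, ?_⟩
      · have hm' : ∀ g ∈ (E.subst σ).gates, g.IsMono f := by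
          intro g hg
          simp only [Circuit.subst, List.mem_map] at hg
          obtain ⟨g', hg', rfl⟩ := hg
          exact Gate.isMono_subst _ g' (hE1 g' hg')
        have h4 := T9h35.TX.tdom_block Hy herr (E.subst σ) hm'
          (by rw [Circuit.size_subst]; omega) U e'
        simp only [Circuit.eval_subst, hσ] at h4
        have h5 := le_cutOp S (T9h34.S.powOp N (5 * (lam * c) + 1)) hη
          (F := fun W => ind (E.eval (graphInput (Φ (put U e' W))) = true))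
          (fun _ => ind_nonneg _) (fun _ => ind_le_one _)
        rw [← hT] at h5
        linarith
      · intro Z hUZ hZ
        exact (hE3 _ (hgi U Z hUZ) hZ).2
      · intro Z hr hZ
        exact hE4 _ hr hZ)
    (by
      intro U Z hUZ hr hU
      exact eval_of_reads_eq hf hC (hgi U Z hUZ) hr hU)
  -- the expected number of changes
  have hchg : ∑ x : Ω × (Fin (p ^ 2) × (Fin m → ZMod 2)), (ν x.1 * w) *
        (((range (p ^ 2)).filter fun i =>
        C.reads (graphInput (Φ (u x.1 (i + 1)))) ≠ C.reads (graphInput (Φ (u x.1 i)))).card : ℝ) =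
      ∑ j ∈ Finset.range (p ^ 2), stage T e j (fun U => T.E (fun W =>
        ind (C.reads (graphInput (Φ (put U (e j) W))) ≠ C.reads (graphInput (Φ U))))) := by
    rw [Fintype.sum_prod_type]
    have h4 : ∀ ω : Ω, ∑ y : Fin (p ^ 2) × (Fin m → ZMod 2), (ν ω * w) *
        (((range (p ^ 2)).filter fun i =>
        C.reads (graphInput (Φ (u ω (i + 1)))) ≠ C.reads (graphInput (Φ (u ω i)))).card : ℝ) =
        ∑ j ∈ range (p ^ 2), ν ω *
          ind (C.reads (graphInput (Φ (u ω (j + 1)))) ≠ C.reads (graphInput (Φ (u ω j)))) := by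
      intro ω
      rw [← Finset.sum_mul, ← Finset.mul_sum, hw1, mul_one, card_filter, Nat.cast_sum,
        Finset.mul_sum]
      apply sum_congr rfl
      intro j _
      by_cases hne : C.reads (graphInput (Φ (u ω (j + 1)))) ≠ C.reads (graphInput (Φ (u ω j)))
      · rw [if_pos hne, ind_of hne, Nat.cast_one]
      · rw [if_neg hne, ind_not hne, Nat.cast_zero]
    simp only [h4]
    rw [sum_comm]
    apply sum_congr rfl
    intro j hj
    rw [mem_range] at hj
    exact h7 j hj (fun U V => ind (C.reads (graphInput (Φ V)) ≠ C.reads (graphInput (Φ U))))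
  -- the advantage
  obtain ⟨a0, ha0⟩ : ∃ a0 : Finset (GGround a (r * β) p) → ℝ,
    a0 = fun Z => ind (C.eval (graphInput (Φ Z)) = true) := ⟨_, rfl⟩
  have hsc : Gr.gscore S T e (p ^ 2)
      (fun Z => ind (C.eval (graphInput (Φ Z)) = true ↔ Gr.HasWord S Z)) =
      ∑ j ∈ range (p ^ 2), ∑ ω, ν ω * (1 - a0 (u ω j) +
        Ev (wordSet (sparseCode S)) (fun V => a0 (put (u ω j) (e j) V))) := by
    unfold Gr.gscore
    apply sum_congr rfl
    intro j hj
    rw [mem_range] at hj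
    rw [hstage j hj]
    apply sum_congr rfl
    intro ω _
    congr 1
    congr 1
    · rw [ha0]
      have hno : ¬ HasWord S (u ω j) := h3 ω j
      dsimp only
      by_cases hc : C.eval (graphInput (Φ (u ω j))) = true
      · rw [ind_not (fun hiff => hno (hiff.1 hc)), ind_of hc, sub_self]
      · rw [ind_of ⟨fun h => absurd h hc, fun h => absurd h hno⟩, ind_not hc, sub_zero]
    · rw [ha0]
      unfold Ev
      congr 1
      apply sum_congr rfl
      intro s' _
      have hyes : HasWord S (put (u ω j) (e j) (wordSet (sparseCode S) s')) :=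
        ⟨e j, s', fun g hg => mem_put.2 (Or.inr ⟨rfl, hg⟩)⟩
      dsimp only
      by_cases hc : C.eval (graphInput (Φ (put (u ω j) (e j) (wordSet (sparseCode S) s')))) = true
      · rw [ind_of ⟨fun _ => hyes, fun _ => hc⟩, ind_of hc]
      · rw [ind_not (fun hiff => hc (hiff.2 hyes)), ind_not hc]
  have hadv : ((p ^ 2 : ℕ) : ℝ) * (∑ x : Ω × (Fin (p ^ 2) × (Fin m → ZMod 2)), (ν x.1 * w) *
        a0 (put (u x.1 x.2.1) (e x.2.1) (wordSet (sparseCode S) x.2.2)) -
      ∑ x : Ω × (Fin (p ^ 2) × (Fin m → ZMod 2)), (ν x.1 * w) * a0 (u x.1 x.2.1)) =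
      ∑ j ∈ range (p ^ 2), ∑ ω, ν ω * (- a0 (u ω j) +
        Ev (wordSet (sparseCode S)) (fun V => a0 (put (u ω j) (e j) V))) := by
    rw [← sum_sub_distrib, Finset.sum_range, sum_comm, Fintype.sum_prod_type, Finset.mul_sum]
    apply sum_congr rfl
    intro ω _
    rw [Fintype.sum_prod_type, Finset.mul_sum]
    apply sum_congr rfl
    intro j _
    dsimp only
    unfold Ev
    have h8 : ∀ s' : Fin m → ZMod 2, ν ω * w * a0 (put (u ω j) (e j) (wordSet (sparseCode S) s')) -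
        ν ω * w * a0 (u ω j) =
        ν ω * w * a0 (put (u ω j) (e j) (wordSet (sparseCode S) s')) +
        (- (ν ω * w * a0 (u ω j))) := fun _ => by ring
    simp only [h8]
    rw [sum_add_distrib, sum_const, card_univ, nsmul_eq_mul, ← Finset.mul_sum, hw]
    field_simp
    ring
  rw [hchg]
  have hone : ∑ j ∈ range (p ^ 2), ∑ ω, ν ω * (1 - a0 (u ω j) +
        Ev (wordSet (sparseCode S)) (fun V => a0 (put (u ω j) (e j) V))) =
      ((p ^ 2 : ℕ) : ℝ) + ∑ j ∈ range (p ^ 2), ∑ ω, ν ω * (- a0 (u ω j) +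
        Ev (wordSet (sparseCode S)) (fun V => a0 (put (u ω j) (e j) V))) := by
    have h8 : ∀ j ω, ν ω * (1 - a0 (u ω j) +
        Ev (wordSet (sparseCode S)) (fun V => a0 (put (u ω j) (e j) V))) =
        ν ω + ν ω * (- a0 (u ω j) +
        Ev (wordSet (sparseCode S)) (fun V => a0 (put (u ω j) (e j) V))) := fun _ _ => by ring
    simp only [h8, sum_add_distrib, h1]
    rw [sum_const, card_range, nsmul_eq_mul, mul_one]
  rw [hsc, hone, ← hadv] at hscore
  simp only [ha0] at hscore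
  have h9 : ((p ^ 2 : ℕ) : ℝ) * (5 * (1 / 2 : ℝ) ^ (2 * l)) ≤ 5 := by nlinarith
  linarith

end Pool.Agent.T9h35.AV
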