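import Pool.Agent.T9h35.QC.X4
import Pool.Agent.T9h12.QC.X5
import Pool.Agent.T9h67.QC.X3
import Pool.Agent.T9h35.AV.Pair

set_option autoImplicit false

/-!
# The converse: windows
-/

namespace Pool.Agent.T9h35.AV

open Finset
open Pool.Agent.T9h34 (ind ind_of ind_not ind_nonneg ind_le_one graphInput)
open Pool.Agent.T9h35.RW (runGates)
open Pool.Agent.T9h34.Q (ones)
open scoped Classical

section fix

variable {ι : Type*}

/-- Gates without tests are replaced by constants. -/
noncomputable def fixG : RW.Gate ι → RW.Gate ι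
  | .mono a φ => .mono a φ
  | .other [] φ => .mono [] (fun _ => if φ [] then 1 else 0)
  | .other (t :: ts) φ => .other (t :: ts) φ

theorem eval_fixG (x : ι → Bool) (vals : List ℝ) (g : RW.Gate ι) :
    (fixG g).eval x vals = g.eval x vals := by
  match g with
  | .mono a φ => rfl
  | .other [] φ => rfl
  | .other (t :: ts) φ => rfl

theorem run_fix (x : ι → Bool) (gs : List (RW.Gate ι)) :
    runGates x (gs.map fixG) = runGates x gs := by
  unfold runGates
  rw [List.foldl_map]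
  simp only [eval_fixG]

theorem fanIn_fixG {f : ℕ} {g : RW.Gate ι} (h : g.FanIn f 1) : (fixG g).FanIn f 1 := by
  match g, h with
  | .mono a φ, h => exact h
  | .other [] φ, h => exact ⟨Nat.zero_le _, fun _ _ _ => le_rfl⟩
  | .other (t :: ts) φ, h => exact h

theorem countP_fix {f : ℕ} (gs : List (RW.Gate ι)) (h : ∀ g ∈ gs, g.FanIn f 1) :
    (gs.map fixG).countP RW.Gate.isOther = (gs.map (fun g => g.tests.length)).sum := by
  induction gs with
  | nil => rfl
  | cons g gs ih =>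
    rw [List.map_cons, List.countP_cons, List.map_cons, List.sum_cons,
      ih (fun g' hg' => h g' (List.mem_cons_of_mem _ hg'))]
    have h1 := h g List.mem_cons_self
    match g, h1 with
    | .mono a φ, h1 => simp [fixG, RW.Gate.isOther, RW.Gate.tests]
    | .other [] φ, h1 => simp [fixG, RW.Gate.isOther, RW.Gate.tests]
    | .other [t] φ, h1 => simp [fixG, RW.Gate.isOther, RW.Gate.tests]; omega
    | .other (t :: t' :: ts) φ, h1 =>
      exfalso
      have h2 : (t :: t' :: ts).length ≤ 1 := h1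
      simp at h2

theorem exists_fix {f : ℕ} (C : RW.Circuit ι) (h : C.FanIn f 1) : ∃ C' : RW.Circuit ι,
    C'.FanIn f 1 ∧ C'.numOther = C.numTests ∧ C'.size = C.size ∧ ∀ x, C'.eval x = C.eval x := by
  refine ⟨⟨C.gates.map fixG, C.out⟩, ?_, countP_fix C.gates h, ?_, fun x => ?_⟩
  · intro g hg
    obtain ⟨g', hg', rfl⟩ := List.mem_map.1 hg
    exact fanIn_fixG (h g' hg')
  · unfold RW.Circuit.size
    rw [List.length_map]
  · unfold RW.Circuit.eval
    dsimp only
    rw [run_fix]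

end fix

/-- The number of windows which accept. -/
theorem window_sum {x W J : ℕ} (hW : 0 < W) (hx : x < J * W) (P : Prop) :
    ∑ j ∈ range J, ind ((j * W + W ≤ x) ∨ (j * W ≤ x ∧ x < j * W + W ∧ P)) =
      ((x / W : ℕ) : ℝ) + ind P := by
  have hq : x / W < J := (Nat.div_lt_iff_lt_mul hW).2 hx
  have h1 : ∀ j ∈ range J, ind ((j * W + W ≤ x) ∨ (j * W ≤ x ∧ x < j * W + W ∧ P)) =
      (if j < x / W then (1 : ℝ) else 0) + (if j = x / W then ind P else 0) := by
    intro j _
    have e1 : x / W * W ≤ x := Nat.div_mul_le_self x W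
    have e2 : x < x / W * W + W := by
      have h3 := Nat.div_add_mod x W
      have h4 := Nat.mod_lt x hW
      rw [mul_comm] at h3
      omega
    rcases lt_trichotomy j (x / W) with h | h | h
    · have h5 : (j + 1) * W ≤ x / W * W := Nat.mul_le_mul_right _ h
      rw [if_pos h, if_neg h.ne, ind_of (Or.inl (by rw [add_mul, one_mul] at h5; omega)), add_zero]
    · subst h
      rw [if_neg (lt_irrefl _), if_pos rfl, zero_add]
      by_cases hP : P
      · rw [ind_of (Or.inr ⟨e1, e2, hP⟩), ind_of hP]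
      · rw [ind_not hP, ind_not]
        rintro (h6 | ⟨_, _, h6⟩)
        · omega
        · exact hP h6
    · have h5 : (x / W + 1) * W ≤ j * W := Nat.mul_le_mul_right _ h
      rw [add_mul, one_mul] at h5
      rw [if_neg (by omega), if_neg (by omega), ind_not, add_zero]
      rintro (h6 | ⟨h6, _⟩) <;> omega
  rw [sum_congr rfl h1, sum_add_distrib, Finset.sum_ite_eq' (range J) (x / W),
    if_pos (mem_range.2 hq)]
  congr 1
  rw [← sum_filter, sum_const, nsmul_one]
  congr 1
  have h2 : (range J).filter (fun j => j < x / W) = range (x / W) := by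
    ext j
    simp only [mem_filter, mem_range]
    omega
  rw [h2, card_range]

theorem ones_mono {n : ℕ} {G H : SimpleGraph (Fin n)} (h : G ≤ H) :
    ones (graphInput G) ≤ ones (graphInput H) := by
  unfold ones
  apply card_le_card
  intro p hp
  rw [mem_filter] at hp ⊢
  refine ⟨hp.1, ?_⟩
  have h1 := hp.2
  unfold graphInput at h1 ⊢
  rw [decide_eq_true_eq] at h1 ⊢
  exact h h1

theorem ones_le {n : ℕ} (G : SimpleGraph (Fin n)) : ones (graphInput G) ≤ n ^ 2 := by
  unfold ones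
  refine (card_le_univ _).trans ?_
  simp [pow_two]

/-- The converse. -/
theorem converse {n : ℕ} (hn : 2 ≤ n) {Ω : Type} [Fintype Ω] (ν : Ω → ℝ)
    (H H' : Ω → SimpleGraph (Fin n)) (h0 : ∀ ω, 0 ≤ ν ω) (hH : ∀ ω, H ω ≤ H' ω)
    {f' d' T : ℕ} (A : RW.Circuit (Fin n × Fin n)) (hf : 2 ≤ f') (hA : A.FanIn f' d')
    (hd : 2 * d' ≤ f') (hT : 2 ^ T ≤ n ^ 2) :
    ∃ C : RW.Circuit (Fin n × Fin n), C.FanIn f' 1 ∧ C.numOther = T ∧
      C.size ≤ 2 * A.size + 10 * n ^ 4 ∧
      2 ^ T * (∑ ω, ν ω * ind (A.eval (graphInput (H' ω)) = true) -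
        ∑ ω, ν ω * ind (A.eval (graphInput (H ω)) = true)) ≤
      2 * n ^ 2 * (∑ ω, ν ω * ind (C.eval (graphInput (H' ω)) = true) -
        ∑ ω, ν ω * ind (C.eval (graphInput (H ω)) = true)) := by
  have hP5 : Pool.Agent.T9h34.Q.StP5 := Pool.Agent.T9h12.QC.stP5 Pool.Agent.T9h67.QC.stP0
    Pool.Agent.T9h67.QC.stP1 Pool.Agent.T9h67.QC.stP2 Pool.Agent.T9h67.QC.stP3
    (Pool.Agent.T9h35.QC.stP4 Pool.Agent.T9h67.QC.stP1)
  have hdep : Pool.Agent.HC34.DepthLE A A.size := ⟨id, fun j hj => hj, fun i j g _ _ hij => hij⟩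
  have hC : ∀ θ : ℕ, ∃ C : RW.Circuit (Fin n × Fin n), C.FanIn f' 1 ∧ C.numOther = T ∧
      C.size ≤ 2 * A.size + 10 * n ^ 4 ∧ ∀ x, C.eval x = true ↔ θ + 2 ^ T ≤ ones x ∨
        (θ ≤ ones x ∧ ones x < θ + 2 ^ T ∧ A.eval x = true) := by
    intro θ
    obtain ⟨C, hC1, hC2, hC3, -, hC5⟩ := hP5 (Fin n × Fin n) f' d' A.size T θ A hf hA hd hdep
    obtain ⟨C', h1, h2, h3, h4⟩ := exists_fix C hC1
    refine ⟨C', h1, h2.trans hC2, ?_, fun x => by rw [h4, hC5]⟩
    rw [h3]
    have hcard : Fintype.card (Fin n × Fin n) = n * n := by simp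
    rw [hcard] at hC3
    refine hC3.trans ?_
    have hTn : T ≤ n * n := by
      rw [← pow_two]
      exact le_trans (le_of_lt Nat.lt_two_pow_self) hT
    have h4 : n ^ 4 = (n * n) * (n * n) := by ring
    rw [h4]
    have hN4 : 4 ≤ n * n := by nlinarith
    obtain ⟨N, hN⟩ : ∃ N, N = n * n := ⟨_, rfl⟩
    rw [← hN] at hTn hN4 ⊢
    nlinarith
  choose Cs hCs1 hCs2 hCs3 hCs4 using hC
  obtain ⟨W, hW⟩ : ∃ W, W = 2 ^ T := ⟨_, rfl⟩
  have hW0 : 0 < W := by rw [hW]; positivity
  obtain ⟨J, hJ⟩ : ∃ J, J = n ^ 2 / W + 1 := ⟨_, rfl⟩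
  have hJW : n ^ 2 < J * W := by
    rw [hJ, add_mul, one_mul]
    have h3 := Nat.div_add_mod (n ^ 2) W
    have h4 := Nat.mod_lt (n ^ 2) hW0
    rw [mul_comm] at h3
    omega
  have hJ2 : J * W ≤ 2 * n ^ 2 := by
    rw [hJ, add_mul, one_mul]
    have h3 := Nat.div_mul_le_self (n ^ 2) W
    rw [← hW] at hT
    omega
  obtain ⟨adv, hadv⟩ : ∃ adv : RW.Circuit (Fin n × Fin n) → ℝ, adv = fun C =>
      ∑ ω, ν ω * ind (C.eval (graphInput (H' ω)) = true) -
        ∑ ω, ν ω * ind (C.eval (graphInput (H ω)) = true) := ⟨_, rfl⟩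
  have hsum : adv A ≤ ∑ j ∈ range J, adv (Cs (j * W)) := by
    have h1 : ∑ j ∈ range J, adv (Cs (j * W)) = ∑ ω, ν ω *
        ((((ones (graphInput (H' ω)) / W : ℕ) : ℝ) + ind (A.eval (graphInput (H' ω)) = true)) -
        (((ones (graphInput (H ω)) / W : ℕ) : ℝ) + ind (A.eval (graphInput (H ω)) = true))) := by
      rw [hadv]
      dsimp only
      simp only [← sum_sub_distrib, ← mul_sub]
      rw [sum_comm]
      apply sum_congr rfl
      intro ω _
      rw [← Finset.mul_sum, sum_sub_distrib]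
      congr 1
      rw [← window_sum hW0 (lt_of_le_of_lt (ones_le (H' ω)) hJW),
        ← window_sum hW0 (lt_of_le_of_lt (ones_le (H ω)) hJW)]
      simp only [hCs4, hW]
    rw [h1, hadv]
    dsimp only
    rw [← sum_sub_distrib]
    apply sum_le_sum
    intro ω _
    rw [← mul_sub]
    apply mul_le_mul_of_nonneg_left _ (h0 ω)
    have h2 : ((ones (graphInput (H ω)) / W : ℕ) : ℝ) ≤ ((ones (graphInput (H' ω)) / W : ℕ) : ℝ) := by
      exact_mod_cast Nat.div_le_div_right (ones_mono (hH ω))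
    linarith
  have hgoal : ∃ θ, (W : ℝ) * adv A ≤ 2 * n ^ 2 * adv (Cs θ) := by
    by_cases hneg : adv A < 0
    · refine ⟨n ^ 2 + 1, ?_⟩
      have h1 : adv (Cs (n ^ 2 + 1)) = 0 := by
        rw [hadv]
        dsimp only
        have h2 : ∀ G : SimpleGraph (Fin n), ¬ (Cs (n ^ 2 + 1)).eval (graphInput G) = true := by
          intro G hG
          rw [hCs4] at hG
          have := ones_le G
          rcases hG with hG | hG
          · omega
          · omega
        simp only [ind_not (h2 _)]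
        simp
      rw [h1, mul_zero]
      have : (0 : ℝ) < W := by exact_mod_cast hW0
      nlinarith
    · push Not at hneg
      have hJ0 : 0 < J := by rw [hJ]; exact Nat.succ_pos _
      obtain ⟨j, -, hj⟩ : ∃ j ∈ range J, adv A / J ≤ adv (Cs (j * W)) := by
        apply exists_le_of_sum_le (s := range J) ⟨0, mem_range.2 hJ0⟩
        rw [sum_const, card_range, nsmul_eq_mul]
        have : (J : ℝ) ≠ 0 := by exact_mod_cast hJ0.ne'
        rw [mul_div_cancel₀ _ this]
        exact hsum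
      refine ⟨j * W, ?_⟩
      have hJr : (0 : ℝ) < J := by exact_mod_cast hJ0
      have h1 : adv A ≤ adv (Cs (j * W)) * J := by
        rwa [div_le_iff₀ hJr] at hj
      have h2 : (0 : ℝ) ≤ adv (Cs (j * W)) := le_trans (div_nonneg hneg hJr.le) hj
      have h3 : ((J : ℝ) * W) ≤ 2 * n ^ 2 := by exact_mod_cast hJ2
      have hWr : (0 : ℝ) < W := by exact_mod_cast hW0
      calc (W : ℝ) * adv A ≤ W * (adv (Cs (j * W)) * J) := mul_le_mul_of_nonneg_left h1 hWr.le
        _ = (J * W) * adv (Cs (j * W)) := by ring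
        _ ≤ 2 * n ^ 2 * adv (Cs (j * W)) := mul_le_mul_of_nonneg_right h3 h2
  obtain ⟨θ, hθ⟩ := hgoal
  refine ⟨Cs θ, hCs1 θ, hCs2 θ, hCs3 θ, ?_⟩
  rw [hadv, hW] at hθ
  push_cast at hθ
  exact hθ

end Pool.Agent.T9h35.AV
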