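import Pool.Agent.T9h35.RW.Defs
import Pool.Agent.T9h34.CliqueDef

set_option autoImplicit false

/-!
# The advantage of a circuit
-/

namespace Pool.Agent.T9h35.AV

open Pool.Agent.T9h34 (graphInput)

/-- The advantage of the circuit `C` in telling the random graph `H'` from the random graph `H`:
the probability that `C` accepts `H'` minus the probability that `C` accepts `H`.  Both random graphs
are given on the probability space `Ω` in which `ω` has the probability `ν ω`. -/
noncomputable def advantage {n : ℕ} {Ω : Type} [Fintype Ω] (ν : Ω → ℝ)
    (H H' : Ω → SimpleGraph (Fin n)) (C : RW.Circuit (Fin n × Fin n)) : ℝ :=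
  (∑ ω with C.eval (graphInput (H' ω)) = true, ν ω) -
    ∑ ω with C.eval (graphInput (H ω)) = true, ν ω

end Pool.Agent.T9h35.AV
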