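import Pool.Agent.T9h35.AV.Conv
import Pool.Agent.T9h35.AV.Defs

set_option autoImplicit false

/-!
# Average-case hardness of clique for arbitrary circuits, and the converse
-/

namespace Pool.Agent.T9h35.AV

open Finset
open Pool.Agent.T9h34 (ind ind_of ind_not ind_nonneg ind_le_one graphInput)
open Pool.Agent.T9h34.V (grid_data)
open Pool.Agent.VC34 (fanIn_mono sum_filter_ind numTests_eq answers_eq changes_le' changes
  numTests)
open Pool.Agent.T9h35.SG (star_data)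
open scoped Classical

theorem advantage_eq {n : ℕ} {Ω : Type} [Fintype Ω] (ν : Ω → ℝ)
    (H H' : Ω → SimpleGraph (Fin n)) (C : RW.Circuit (Fin n × Fin n)) :
    advantage ν H H' C = ∑ ω, ν ω * ind (C.eval (graphInput (H' ω)) = true) -
      ∑ ω, ν ω * ind (C.eval (graphInput (H ω)) = true) := by
  unfold advantage
  rw [sum_filter_ind, sum_filter_ind]

/-- **Average-case hardness of clique for arbitrary circuits.** -/
theorem average_case_pair : ∃ K : ℕ, ∀ n k s f b : ℕ, 1 ≤ b → 2 ≤ k → k ≤ n →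
    K * (Nat.log 2 s + Nat.log 2 n + 1) *
      (Nat.log 2 (Nat.log 2 s + Nat.log 2 n + 1 + f) + 1 + b) ^ 3 ≤ k * b ^ 4 →
    ∃ (M : ℕ) (Ω : Type) (_ : Fintype Ω) (ν : Ω → ℝ) (G : Ω → ℕ → SimpleGraph (Fin n))
      (H H' : Ω → SimpleGraph (Fin n)),
      (n - k) ^ 2 ≤ K * (Nat.log 2 s + Nat.log 2 n + 1) ^ 2 * (Nat.log 2 s + Nat.log 2 n + 1 + f) *
        (Nat.log 2 (Nat.log 2 s + Nat.log 2 n + 1 + f) + 1) ^ 7 * 2 ^ (9 * b) * M ∧
      (K * (Nat.log 2 s + Nat.log 2 n + 1) * (Nat.log 2 s + Nat.log 2 n + 1 + f) *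
        (Nat.log 2 (Nat.log 2 s + Nat.log 2 n + 1 + f) + 1) ^ 5 * 2 ^ (5 * b) ≤ n - k →
      (n - k) ^ 2 ≤ K * (Nat.log 2 s + Nat.log 2 n + 1) * (Nat.log 2 s + Nat.log 2 n + 1 + f) *
        (Nat.log 2 (Nat.log 2 s + Nat.log 2 n + 1 + f) + 1) ^ 5 * 2 ^ (5 * b) * M) ∧
      (∀ ω, 0 ≤ ν ω) ∧ ∑ ω, ν ω = 1 ∧ (∀ ω i, G ω i ≤ G ω (i + 1)) ∧
      (∀ ω i, ¬ ∃ S, (G ω i).IsNClique k S) ∧
      (∀ ω, H ω ≤ H' ω ∧ (¬ ∃ S, (H ω).IsNClique k S) ∧ ∃ S, (H' ω).IsNClique k S) ∧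
      (∀ (d : ℕ) (C : RW.Circuit (Fin n × Fin n)), C.FanIn f d → C.size + numTests C ≤ s →
        (∀ ω, changes C M (G ω) + d ≤ d * 2 ^ C.numOther) ∧
        (M : ℝ) * advantage ν H H' C ≤ 8 + 6 * ∑ ω, ν ω * changes C M (G ω)) ∧
      ∀ (f' d' t : ℕ) (A : RW.Circuit (Fin n × Fin n)), 2 ≤ f' → 2 * d' ≤ f' → A.FanIn f' d' →
        2 ^ t ≤ n ^ 2 → ∃ C : RW.Circuit (Fin n × Fin n), C.FanIn f' 1 ∧ C.numOther = t ∧
          C.size ≤ 2 * A.size + 10 * n ^ 4 ∧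
          2 ^ t * advantage ν H H' A ≤ 2 * n ^ 2 * advantage ν H H' C := by
  refine ⟨10 ^ 38, ?_⟩
  intro n q s f β hβ hq2 hqn hq
  obtain ⟨K, hK⟩ : ∃ K, K = 10 ^ 38 := ⟨_, rfl⟩
  have hK2 : 10 ^ 38 ≤ K := by omega
  rw [← hK] at hq ⊢
  -- the converse holds for every pair
  have hconv : ∀ (Ω : Type) (_ : Fintype Ω) (ν : Ω → ℝ) (H H' : Ω → SimpleGraph (Fin n)),
      (∀ ω, 0 ≤ ν ω) →
      (∀ ω, H ω ≤ H' ω ∧ (¬ ∃ S, (H ω).IsNClique q S) ∧ ∃ S, (H' ω).IsNClique q S) →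
      ∀ (f' d' t : ℕ) (A : RW.Circuit (Fin n × Fin n)), 2 ≤ f' → 2 * d' ≤ f' → A.FanIn f' d' →
        2 ^ t ≤ n ^ 2 → ∃ C : RW.Circuit (Fin n × Fin n), C.FanIn f' 1 ∧ C.numOther = t ∧
          C.size ≤ 2 * A.size + 10 * n ^ 4 ∧
          2 ^ t * advantage ν H H' A ≤ 2 * n ^ 2 * advantage ν H H' C := by
    intro Ω _ ν H H' h0 hH f' d' t A hf hd hA ht
    obtain ⟨C, h1, h2, h3, h4⟩ :=
      converse (le_trans hq2 hqn) ν H H' h0 (fun ω => (hH ω).1) A hf hA hd ht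
    refine ⟨C, h1, h2, h3, ?_⟩
    rw [advantage_eq, advantage_eq]
    exact h4
  obtain ⟨L0, hL0⟩ : ∃ L0, L0 = Nat.log 2 s + Nat.log 2 n + 1 := ⟨_, rfl⟩
  rw [← hL0] at hq ⊢
  obtain ⟨z, hz⟩ : ∃ z, z = Nat.log 2 (L0 + f) + 1 := ⟨_, rfl⟩
  rw [← hz] at hq ⊢
  have hL1 : 1 ≤ L0 := by omega
  have hz1 : 1 ≤ z := by omega
  have hs : s < 2 ^ L0 := lt_of_lt_of_le (Nat.lt_pow_succ_log_self (by norm_num) _)
    (Nat.pow_le_pow_right (by norm_num) (by omega))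
  have hn : n < 2 ^ L0 := lt_of_lt_of_le (Nat.lt_pow_succ_log_self (by norm_num) _)
    (Nat.pow_le_pow_right (by norm_num) (by omega))
  obtain ⟨z', hz'⟩ : ∃ z', z' = Nat.log 2 (L0 + (f + 2)) + 1 := ⟨_, rfl⟩
  have hzz : z' ≤ 3 * z := by
    have h1 : Nat.log 2 (L0 + (f + 2)) < z + 2 := by
      apply (Nat.log_lt_iff_lt_pow (by norm_num) (by omega)).2
      have h2 : L0 + f < 2 ^ z := by rw [hz]; exact Nat.lt_pow_succ_log_self (by norm_num) _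
      calc L0 + (f + 2) ≤ 4 * (L0 + f) := by omega
        _ < 4 * 2 ^ z := by omega
        _ = 2 ^ (z + 2) := by rw [pow_add]; ring
    omega
  have hq' : 10 ^ 12 * (L0 * (z' + β) ^ 3) ≤ q * β ^ 4 := by
    refine le_trans ?_ hq
    calc 10 ^ 12 * (L0 * (z' + β) ^ 3) ≤ 10 ^ 12 * (L0 * (3 * (z + β)) ^ 3) :=
          Nat.mul_le_mul_left _ (Nat.mul_le_mul_left _ (Nat.pow_le_pow_left (by omega) 3))
      _ = 27 * 10 ^ 12 * (L0 * (z + β) ^ 3) := by ring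
      _ ≤ K * (L0 * (z + β) ^ 3) := Nat.mul_le_mul_right _ (le_trans (by norm_num) hK2)
      _ = _ := by ring
  have hnL : n - q < 2 ^ L0 := lt_of_le_of_lt (Nat.sub_le _ _) hn
  by_cases hcase : K * L0 * (L0 + f) * z ^ 5 * 2 ^ (5 * β) ≤ n - q
  · have hR : 256 * 10 ^ 22 * (L0 * (L0 + (f + 2)) * z' ^ 5 * 2 ^ (5 * β)) ≤
        K * L0 * (L0 + f) * z ^ 5 * 2 ^ (5 * β) := by
      calc 256 * 10 ^ 22 * (L0 * (L0 + (f + 2)) * z' ^ 5 * 2 ^ (5 * β))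
          ≤ 256 * 10 ^ 22 * (L0 * (3 * (L0 + f)) * (3 * z) ^ 5 * 2 ^ (5 * β)) := by
            apply Nat.mul_le_mul_left
            apply Nat.mul_le_mul_right
            exact Nat.mul_le_mul (Nat.mul_le_mul_left _ (by omega)) (Nat.pow_le_pow_left hzz 5)
        _ = (256 * 10 ^ 22 * 729) * (L0 * (L0 + f) * z ^ 5 * 2 ^ (5 * β)) := by ring
        _ ≤ K * (L0 * (L0 + f) * z ^ 5 * 2 ^ (5 * β)) :=
            Nat.mul_le_mul_right _ (le_trans (by norm_num) hK2)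
        _ = _ := by ring
    have hpos : 1 ≤ L0 * (L0 + (f + 2)) * z' ^ 5 := by
      have h1 : 1 ≤ z' ^ 5 := Nat.one_le_pow _ _ (by omega)
      calc 1 = 1 * 1 * 1 := by norm_num
        _ ≤ L0 * (L0 + (f + 2)) * z' ^ 5 := Nat.mul_le_mul (Nat.mul_le_mul hL1 (by omega)) h1
    have hβL : β ≤ L0 := by
      by_contra hcon
      push Not at hcon
      have h1 : 2 ^ L0 ≤ 2 ^ (5 * β) := Nat.pow_le_pow_right (by norm_num) (by omega)
      have h2 : 1 * (1 * 2 ^ (5 * β)) ≤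
          256 * 10 ^ 22 * (L0 * (L0 + (f + 2)) * z' ^ 5 * 2 ^ (5 * β)) :=
        Nat.mul_le_mul (by norm_num) (Nat.mul_le_mul_right _ hpos)
      omega
    obtain ⟨a, r, m, p, l, c, lam, S, N, B, κ, e, σ, Φ, hl, hβlam, hcβ, ha, hp0, hX, Hy, hη, he,
      hΦ, hσ, hMsmall, hnq⟩ := star_data hqn hL1 hn hβ hβL hz' hq' (by omega)
    obtain ⟨Ω, inst, ν, G, H, H', h2, h3, h4, h5, h5', h6⟩ :=
      pair_case (f := f + 2) (by omega) hs hl hβlam hcβ ha hp0 hX Hy hη he hΦ hσ hMsmall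
    have hnew : (n - q) ^ 2 ≤ K * L0 * (L0 + f) * z ^ 5 * 2 ^ (5 * β) * p ^ 2 :=
      hnq.trans (Nat.mul_le_mul_right _ hR)
    refine ⟨p ^ 2, Ω, inst, ν, G, H, H', ?_, fun _ => hnew, h2, h3, h4, h5, h5',
      fun d C hC hCs => ⟨fun ω => ?_, ?_⟩, hconv Ω inst ν H H' h2 h5'⟩
    · refine hnew.trans (Nat.mul_le_mul_right _ ?_)
      calc K * L0 * (L0 + f) * z ^ 5 * 2 ^ (5 * β)
          = K * (L0 * 1) * (L0 + f) * (z ^ 5 * 1) * 2 ^ (5 * β) := by ring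
        _ ≤ K * (L0 * L0) * (L0 + f) * (z ^ 5 * z ^ 2) * 2 ^ (9 * β) := by
            have h7 : 1 ≤ z ^ 2 := Nat.one_le_pow _ _ hz1
            have h8 : 2 ^ (5 * β) ≤ 2 ^ (9 * β) := Nat.pow_le_pow_right (by norm_num) (by omega)
            gcongr
        _ = K * L0 ^ 2 * (L0 + f) * z ^ 7 * 2 ^ (9 * β) := by ring
    · exact changes_le' hC (G ω) (h4 ω) (p ^ 2)
    · rw [numTests_eq] at hCs
      rw [advantage_eq]
      refine (h6 d C (fanIn_mono (by omega) hC) hCs).trans (le_of_eq ?_)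
      unfold changes
      simp only [answers_eq]
      simp only [ne_comm]
  have hR : 4 * 10 ^ 33 * (L0 ^ 2 * (L0 + (f + 2)) * z' ^ 7 * 2 ^ (9 * β)) ≤
      K * L0 ^ 2 * (L0 + f) * z ^ 7 * 2 ^ (9 * β) := by
    calc 4 * 10 ^ 33 * (L0 ^ 2 * (L0 + (f + 2)) * z' ^ 7 * 2 ^ (9 * β))
        ≤ 4 * 10 ^ 33 * (L0 ^ 2 * (3 * (L0 + f)) * (3 * z) ^ 7 * 2 ^ (9 * β)) := by
          apply Nat.mul_le_mul_left
          apply Nat.mul_le_mul_right
          exact Nat.mul_le_mul (Nat.mul_le_mul_left _ (by omega)) (Nat.pow_le_pow_left hzz 7)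
      _ = (4 * 10 ^ 33 * 6561) * (L0 ^ 2 * (L0 + f) * z ^ 7 * 2 ^ (9 * β)) := by ring
      _ ≤ K * (L0 ^ 2 * (L0 + f) * z ^ 7 * 2 ^ (9 * β)) :=
          Nat.mul_le_mul_right _ (le_trans (by norm_num) hK2)
      _ = _ := by ring
  by_cases hbig : β ≤ L0 ∧
      4 * 10 ^ 33 * (L0 ^ 2 * (L0 + (f + 2)) * z' ^ 7 * 2 ^ (9 * β)) < (n - q) ^ 2
  · obtain ⟨a, r, m, p, l, c, lam, W0, S, N, B, κ, e, σ, Φ, hl, hβlam, hcβ, ha, hp0, hX, Hy, hη,
      he, hΦ, hσ, hMsmall, hnq, hW0⟩ := grid_data hqn hL1 hn hβ hbig.1 hz' hq' hbig.2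
    obtain ⟨Ω, inst, ν, G, H, H', h2, h3, h4, h5, h5', h6⟩ :=
      pair_case (f := f + 2) (by omega) hs hl hβlam hcβ ha hp0 hX Hy hη he hΦ hσ hMsmall
    refine ⟨p ^ 2, Ω, inst, ν, G, H, H', ?_, fun h => absurd h hcase, h2, h3, h4, h5, h5',
      fun d C hC hCs => ⟨fun ω => ?_, ?_⟩, hconv Ω inst ν H H' h2 h5'⟩
    · calc (n - q) ^ 2 ≤ (2 * p * W0) ^ 2 := Nat.pow_le_pow_left hnq 2
        _ = 4 * W0 ^ 2 * p ^ 2 := by ring
        _ ≤ (4 * W0) ^ 2 * p ^ 2 := by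
            apply Nat.mul_le_mul_right
            rw [mul_pow]
            exact Nat.mul_le_mul_right _ (by norm_num)
        _ ≤ _ := Nat.mul_le_mul_right _ (hW0.trans hR)
    · exact changes_le' hC (G ω) (h4 ω) (p ^ 2)
    · rw [numTests_eq] at hCs
      rw [advantage_eq]
      refine (h6 d C (fanIn_mono (by omega) hC) hCs).trans (le_of_eq ?_)
      unfold changes
      simp only [answers_eq]
      simp only [ne_comm]
  · have h3 : (n - q) ^ 2 ≤ K * L0 ^ 2 * (L0 + f) * z ^ 7 * 2 ^ (9 * β) := by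
      by_cases h5 : β ≤ L0
      · have h6 : (n - q) ^ 2 ≤ 4 * 10 ^ 33 * (L0 ^ 2 * (L0 + (f + 2)) * z' ^ 7 * 2 ^ (9 * β)) := by
          by_contra h6
          push Not at h6
          exact hbig ⟨h5, h6⟩
        exact h6.trans hR
      · push Not at h5
        have h6 : (n - q) ^ 2 ≤ (2 ^ L0) ^ 2 := Nat.pow_le_pow_left (by omega) 2
        have h7 : (2 ^ L0) ^ 2 ≤ 2 ^ (9 * β) := by
          rw [← pow_mul]
          exact Nat.pow_le_pow_right (by norm_num) (by omega)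
        have h8 : 1 ≤ L0 ^ 2 * (L0 + f) * z ^ 7 := Nat.one_le_iff_ne_zero.2 (by positivity)
        calc (n - q) ^ 2 ≤ 2 ^ (9 * β) := h6.trans h7
          _ = 1 * (1 * 2 ^ (9 * β)) := by ring
          _ ≤ K * (L0 ^ 2 * (L0 + f) * z ^ 7 * 2 ^ (9 * β)) :=
              Nat.mul_le_mul (by omega) (Nat.mul_le_mul_right _ h8)
          _ = _ := by ring
    have hbot : ¬ ∃ S, (⊥ : SimpleGraph (Fin n)).IsNClique q S := by
      rintro ⟨T, hT⟩
      rw [SimpleGraph.isNClique_iff] at hT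
      obtain ⟨u, hu, v, hv, huv⟩ := Finset.one_lt_card.1 (by omega : 1 < T.card)
      exact hT.1 hu hv huv
    have htop : ∃ S, (⊤ : SimpleGraph (Fin n)).IsNClique q S := by
      obtain ⟨S, -, hS⟩ := Finset.exists_subset_card_eq (s := (univ : Finset (Fin n))) (n := q)
        (by rw [card_univ, Fintype.card_fin]; exact hqn)
      refine ⟨S, (SimpleGraph.isNClique_iff _).2 ⟨?_, hS⟩⟩
      intro u _ v _ huv
      exact huv
    have hpair : ∀ _ω : Unit, (⊥ : SimpleGraph (Fin n)) ≤ ⊤ ∧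
        (¬ ∃ S, (⊥ : SimpleGraph (Fin n)).IsNClique q S) ∧
        ∃ S, (⊤ : SimpleGraph (Fin n)).IsNClique q S := fun _ => ⟨bot_le, hbot, htop⟩
    refine ⟨1, Unit, inferInstance, fun _ => 1, fun _ _ => ⊥, fun _ => ⊥, fun _ => ⊤,
      by rw [mul_one]; exact h3, fun h => absurd h hcase,
      fun _ => zero_le_one, by simp, fun _ _ => le_rfl, fun _ _ => hbot, hpair,
      ?_, hconv Unit _ _ _ _ (fun _ => zero_le_one) hpair⟩
    intro d C hC _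
    refine ⟨fun ω => changes_le' hC _ (fun _ => le_rfl) 1, ?_⟩
    have hE0 : (0 : ℝ) ≤ ∑ _ω : Unit, (1 : ℝ) *
        changes C 1 (fun _ => (⊥ : SimpleGraph (Fin n))) := by
      positivity
    rw [Nat.cast_one, advantage_eq]
    simp only [univ_unique, sum_singleton, one_mul] at hE0 ⊢
    have h4 := ind_le_one (C.eval (graphInput (⊤ : SimpleGraph (Fin n))) = true)
    have h5 := ind_nonneg (C.eval (graphInput (⊥ : SimpleGraph (Fin n))) = true)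
    linarith

end Pool.Agent.T9h35.AV
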